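import Mathlib

/-!
# Relations with parameters: the statement (T) from `Hyp` and elimination

`G N n` is a set of complex numbers for all `N, n` (for example `{γ_n}`, or the points near `γ_n`).
-/

namespace Pool.Agent.Lib.MP_ec260d_ntW

open MvPolynomial

open Classical in
/-- the theorem `AllShifts` for a set-valued sequence -/
def Hyp (G : ℕ → ℕ → Set ℂ) : Prop :=
  ∀ (k D : ℕ) (e c : ℝ), 0 < e → 0 ≤ c → ∃ M N0 : ℕ, ∀ N : ℕ, N0 ≤ N → ∀ m : Fin (k + 1) → ℕ, m 0 = 0 →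
    (∀ i : Fin k, m i.castSucc + M ≤ m i.succ) → (m (Fin.last k) : ℝ) ≤ c * N →
    ∀ P : MvPolynomial (Fin (k + 1)) ℂ, P ≠ 0 → P.totalDegree ≤ D →
      (((Finset.Icc 1 N).filter (fun n : ℕ => ∃ x : Fin (k + 1) → ℂ, (∀ i, x i ∈ G N (n + m i)) ∧
        eval x P = 0)).card : ℝ) ≤ e * N

/-- the elimination lemma -/
def ElimSt : Prop :=
  ∀ (V I S : Type) [Fintype V] [Fintype I] [Fintype S], Fintype.card V < Fintype.card S →
    ∀ (b : I → S) (D : ℕ), ∃ E : ℕ, ∀ q : S → MvPolynomial (V ⊕ I) ℂ, (∀ s, (q s).totalDegree ≤ D) →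
      (∀ s i, Sum.inr i ∈ (q s).vars → b i = s) → ∃ P : MvPolynomial I ℂ, P ≠ 0 ∧ P.totalDegree ≤ E ∧
        ∀ (v : V → ℂ) (x : I → ℂ), (∀ s, (∃ z : I → ℂ, eval (Sum.elim v z) (q s) ≠ 0) ∧
          eval (Sum.elim v x) (q s) = 0) → eval x P = 0

open Classical in
/-- `Hyp` for separated shifts indexed by any finite type -/
theorem hyp_sorted {G : ℕ → ℕ → Set ℂ} (hG : Hyp G) (I : Type) [Fintype I] [Nonempty I] (D : ℕ) (e c : ℝ)
    (he : 0 < e) (hc : 0 ≤ c) : ∃ M N0 : ℕ, ∀ N : ℕ, N0 ≤ N → ∀ m : I → ℕ, (∃ i, m i = 0) →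
      (∀ i i', i ≠ i' → m i + M ≤ m i' ∨ m i' + M ≤ m i) → (∀ i, (m i : ℝ) ≤ c * N) →
      ∀ P : MvPolynomial I ℂ, P ≠ 0 → P.totalDegree ≤ D →
        (((Finset.Icc 1 N).filter (fun n : ℕ => ∃ x : I → ℂ, (∀ i, x i ∈ G N (n + m i)) ∧
          eval x P = 0)).card : ℝ) ≤ e * N := by
  obtain ⟨K, hK⟩ : ∃ K, Fintype.card I = K + 1 := ⟨Fintype.card I - 1, by
    have : 0 < Fintype.card I := Fintype.card_pos
    omega⟩
  let e₀ : Fin (K + 1) ≃ I := (Fintype.equivFinOfCardEq hK).symm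
  obtain ⟨M, N0, h⟩ := hG K D e c he hc
  refine ⟨M, N0, fun N hN m h0 hsep hmc P hP hPD => ?_⟩
  let f : Fin (K + 1) → ℕ := fun j => m (e₀ j)
  let g : Fin (K + 1) ≃ I := (Tuple.sort f).trans e₀
  have hmono : Monotone fun j => m (g j) := Tuple.monotone_sort f
  have hm0 : m (g 0) = 0 := by
    obtain ⟨i, hi⟩ := h0
    have h1 := hmono (Fin.zero_le (g.symm i))
    simp only [Equiv.apply_symm_apply, hi] at h1
    exact Nat.le_zero.1 h1
  have hgap : ∀ i : Fin K, m (g i.castSucc) + M ≤ m (g i.succ) := by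
    intro i
    have h1 : m (g i.castSucc) ≤ m (g i.succ) := hmono (Fin.castSucc_lt_succ (i := i)).le
    have h2 : g i.castSucc ≠ g i.succ := fun h => (Fin.castSucc_lt_succ (i := i)).ne (g.injective h)
    rcases hsep _ _ h2 with h3 | h3
    · exact h3
    · omega
  have hP' : rename g.symm P ≠ 0 := fun h => hP (rename_injective _ g.symm.injective (by rw [h, map_zero]))
  refine le_trans ?_ (h N hN (fun j => m (g j)) hm0 hgap (hmc _) (rename g.symm P) hP'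
    ((totalDegree_rename_le _ _).trans hPD))
  refine Nat.cast_le.2 (Finset.card_le_card fun n hn => ?_)
  rw [Finset.mem_filter] at hn ⊢
  obtain ⟨hn1, x, hx, hx0⟩ := hn
  refine ⟨hn1, fun j => x (g j), fun j => hx (g j), ?_⟩
  rw [eval_rename]
  have h5 : (fun j => x (g j)) ∘ g.symm = x := by
    funext i
    simp
  rw [h5]
  exact hx0

/-- the polynomial of a block -/
private noncomputable def blk {V S : Type} {k : ℕ} (s : S) (q : MvPolynomial (V ⊕ Fin (k + 1)) ℂ) :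
    MvPolynomial (V ⊕ (S × Fin (k + 1))) ℂ :=
  rename (Sum.map id fun i => (s, i)) q

private theorem blk_eval {V S : Type} {k : ℕ} (s : S) (q : MvPolynomial (V ⊕ Fin (k + 1)) ℂ) (v : V → ℂ)
    (x : S × Fin (k + 1) → ℂ) :
    eval (Sum.elim v x) (blk s q) = eval (Sum.elim v fun i => x (s, i)) q := by
  unfold blk
  rw [eval_rename]
  congr 2
  funext a
  rcases a with a | a <;> rfl

private theorem blk_vars {V S : Type} {k : ℕ} (s s' : S) (i : Fin (k + 1))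
    (q : MvPolynomial (V ⊕ Fin (k + 1)) ℂ) (h : Sum.inr (s', i) ∈ (blk s q).vars) : s' = s := by
  classical
  have h1 := vars_rename (Sum.map id fun i => (s, i)) q h
  rw [Finset.mem_image] at h1
  obtain ⟨a, -, ha⟩ := h1
  rcases a with a | a
  · simp at ha
  · simp only [Sum.map_inr, Sum.inr.injEq, Prod.mk.injEq] at ha
    exact ha.1.symm

open Classical in
/-- the statement (T) -/
theorem wind_T (hel : ElimSt) {G : ℕ → ℕ → Set ℂ} (hG : Hyp G) (V S : Type) [Fintype V] [Fintype S]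
    (hVS : Fintype.card V < Fintype.card S) (k D H : ℕ) (ε C : ℝ) (hε : 0 < ε) (hC : 0 ≤ C) :
    ∃ M N₀ : ℕ, ∀ N : ℕ, N₀ ≤ N → ∀ t : S → Fin (k + 1) → ℕ, (∃ s i, t s i = 0) →
      (∀ s i s' i', (s, i) ≠ (s', i') → t s i + M ≤ t s' i' ∨ t s' i' + M ≤ t s i) →
      (∀ s i, (t s i : ℝ) ≤ C * N) → ∀ Q : S → Finset (MvPolynomial (V ⊕ Fin (k + 1)) ℂ),
        (∀ s, (Q s).card ≤ H ∧ ∀ q ∈ Q s, q.totalDegree ≤ D) →
        (((Finset.Icc 1 N).filter (fun n : ℕ => ∃ (v : V → ℂ) (x : S → Fin (k + 1) → ℂ),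
          (∀ s i, x s i ∈ G N (n + t s i)) ∧ ∀ s, ∃ q ∈ Q s,
            (∃ z : Fin (k + 1) → ℂ, eval (Sum.elim v z) q ≠ 0) ∧
              eval (Sum.elim v (x s)) q = 0)).card : ℝ) ≤ ε * N := by
  have hS : Nonempty S := Fintype.card_pos_iff.1 (lt_of_le_of_lt (Nat.zero_le _) hVS)
  obtain ⟨E, hE⟩ := hel V (S × Fin (k + 1)) S hVS Prod.fst D
  have hH : (0 : ℝ) < (H : ℝ) ^ Fintype.card S + 1 := by positivity
  obtain ⟨M, N₀, hM⟩ := hyp_sorted hG (S × Fin (k + 1)) E (ε / ((H : ℝ) ^ Fintype.card S + 1)) C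
    (div_pos hε hH) hC
  refine ⟨M, N₀, fun N hN t h0 hsep htC Q hQ => ?_⟩
  -- the eliminated polynomial of a choice
  have hch : ∀ c : S → MvPolynomial (V ⊕ Fin (k + 1)) ℂ, (∀ s, c s ∈ Q s) →
      ∃ P : MvPolynomial (S × Fin (k + 1)) ℂ, P ≠ 0 ∧ P.totalDegree ≤ E ∧
        ∀ (v : V → ℂ) (x : S × Fin (k + 1) → ℂ), (∀ s, (∃ z : S × Fin (k + 1) → ℂ,
          eval (Sum.elim v z) (blk s (c s)) ≠ 0) ∧ eval (Sum.elim v x) (blk s (c s)) = 0) →
            eval x P = 0 := by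
    intro c hc
    refine hE (fun s => blk s (c s)) (fun s => ?_) (fun s i hi => ?_)
    · exact (totalDegree_rename_le _ _).trans ((hQ s).2 _ (hc s))
    · exact blk_vars s i.1 i.2 (c s) hi
  let Bad : (S → MvPolynomial (V ⊕ Fin (k + 1)) ℂ) → Finset ℕ := fun c =>
    if hc : ∀ s, c s ∈ Q s then
      (Finset.Icc 1 N).filter fun n : ℕ => ∃ x : S × Fin (k + 1) → ℂ,
        (∀ i, x i ∈ G N (n + t i.1 i.2)) ∧ eval x (hch c hc).choose = 0
    else ∅
  have hBad : ∀ c ∈ Fintype.piFinset Q, ((Bad c).card : ℝ) ≤ ε / ((H : ℝ) ^ Fintype.card S + 1) * N := by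
    intro c hc
    rw [Fintype.mem_piFinset] at hc
    obtain ⟨h1, h2, -⟩ := (hch c hc).choose_spec
    show ((if hc : ∀ s, c s ∈ Q s then _ else ∅ : Finset ℕ).card : ℝ) ≤ _
    rw [dif_pos hc]
    refine hM N hN (fun i => t i.1 i.2) ?_ (fun i i' hii => ?_) (fun i => htC _ _) _ h1 h2
    · obtain ⟨s, i, hsi⟩ := h0
      exact ⟨(s, i), hsi⟩
    · exact hsep i.1 i.2 i'.1 i'.2 hii
  have hsub : ((Finset.Icc 1 N).filter (fun n : ℕ => ∃ (v : V → ℂ) (x : S → Fin (k + 1) → ℂ),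
          (∀ s i, x s i ∈ G N (n + t s i)) ∧ ∀ s, ∃ q ∈ Q s,
            (∃ z : Fin (k + 1) → ℂ, eval (Sum.elim v z) q ≠ 0) ∧
              eval (Sum.elim v (x s)) q = 0)) ⊆ (Fintype.piFinset Q).biUnion Bad := by
    intro n hn
    rw [Finset.mem_filter] at hn
    obtain ⟨hn1, v, x, hx, hq⟩ := hn
    choose c hcQ hcz hcx using hq
    rw [Finset.mem_biUnion]
    refine ⟨c, Fintype.mem_piFinset.2 hcQ, ?_⟩
    show n ∈ (if hc : ∀ s, c s ∈ Q s then _ else ∅ : Finset ℕ)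
    rw [dif_pos hcQ, Finset.mem_filter]
    refine ⟨hn1, fun i => x i.1 i.2, fun i => hx _ _, ?_⟩
    refine (hch c hcQ).choose_spec.2.2 v _ fun s => ⟨?_, ?_⟩
    · obtain ⟨z, hz⟩ := hcz s
      refine ⟨fun i => z i.2, ?_⟩
      rw [blk_eval]
      exact hz
    · rw [blk_eval]
      exact hcx s
  have hcard : ((Fintype.piFinset Q).card : ℝ) ≤ (H : ℝ) ^ Fintype.card S := by
    rw [Fintype.card_piFinset]
    push_cast
    calc ∏ s, ((Q s).card : ℝ) ≤ ∏ _s : S, (H : ℝ) :=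
          Finset.prod_le_prod (fun s _ => Nat.cast_nonneg _) fun s _ => by exact_mod_cast (hQ s).1
      _ = (H : ℝ) ^ Fintype.card S := by rw [Finset.prod_const, Finset.card_univ]
  have hN0 : (0 : ℝ) ≤ N := Nat.cast_nonneg N
  calc (((Finset.Icc 1 N).filter _).card : ℝ) ≤ (((Fintype.piFinset Q).biUnion Bad).card : ℝ) :=
        Nat.cast_le.2 (Finset.card_le_card hsub)
    _ ≤ ((∑ c ∈ Fintype.piFinset Q, (Bad c).card : ℕ) : ℝ) := Nat.cast_le.2 Finset.card_biUnion_le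
    _ = ∑ c ∈ Fintype.piFinset Q, ((Bad c).card : ℝ) := by push_cast; rfl
    _ ≤ ∑ _c ∈ Fintype.piFinset Q, ε / ((H : ℝ) ^ Fintype.card S + 1) * N := Finset.sum_le_sum hBad
    _ = (Fintype.piFinset Q).card * (ε / ((H : ℝ) ^ Fintype.card S + 1) * N) := by
        rw [Finset.sum_const, nsmul_eq_mul]
    _ ≤ ((H : ℝ) ^ Fintype.card S + 1) * (ε / ((H : ℝ) ^ Fintype.card S + 1) * N) := by
        refine mul_le_mul_of_nonneg_right (hcard.trans (by linarith)) ?_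
        exact mul_nonneg (div_pos hε hH).le hN0
    _ = ε * N := by
        field_simp

end Pool.Agent.Lib.MP_ec260d_ntW
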