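import Mathlib

/-!
Algebraic dependence of the points of a family with few parameters.
-/

namespace Pool.Agent.Lib.MP_ec260d_ntW

open MvPolynomial

section

variable {R F : Type} [CommRing R] [Field F] [Algebra R F] [FaithfulSMul R F]

/-- If a nonzero polynomial with coefficients in the ring generated by `s` vanishes at `x` then some `x i` is
algebraic over `s` and the other coordinates. -/
private theorem w0_dep {ι : Type} (s : Set F) (x : ι → F) (P : MvPolynomial ι F) (hP : P ≠ 0)
    (hc : ∀ α, P.coeff α ∈ Algebra.adjoin R s) (h0 : eval x P = 0) :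
    ∃ i, x i ∈ (AlgebraicIndependent.matroid R F).closure (s ∪ x '' {i}ᶜ) := by
  obtain ⟨P', hP'⟩ : ∃ P' : MvPolynomial ι (Algebra.adjoin R s),
      MvPolynomial.map (algebraMap (Algebra.adjoin R s) F) P' = P := by
    have h1 : P ∈ Set.range (MvPolynomial.map (σ := ι) (algebraMap (Algebra.adjoin R s) F)) := by
      rw [mem_range_map_iff_coeffs_subset]
      intro c hc'
      obtain ⟨α, rfl⟩ : ∃ α, P.coeff α = c := by
        simp only [MvPolynomial.coeffs, Finset.coe_image, Set.mem_image] at hc'
        obtain ⟨α, _, h⟩ := hc'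
        exact ⟨α, h⟩
      exact ⟨⟨_, hc α⟩, rfl⟩
    exact h1
  by_contra hcon
  push Not at hcon
  have hind : AlgebraicIndependent (Algebra.adjoin R s) x := by
    refine algebraicIndependent_of_finite_type' Subtype.val_injective fun t _ _ i hi halg => ?_
    apply hcon i
    rw [AlgebraicIndependent.matroid_closure_eq, SetLike.mem_coe, Subalgebra.mem_algebraicClosure]
    have h1 : (Algebra.adjoin (Algebra.adjoin R s) (x '' t)).restrictScalars R ≤
        Algebra.adjoin R (s ∪ x '' {i}ᶜ) := by
      rw [← Algebra.adjoin_union_eq_adjoin_adjoin]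
      refine Algebra.adjoin_mono (Set.union_subset_union_right _ (Set.image_mono ?_))
      intro j hj hji
      rw [Set.mem_singleton_iff] at hji
      exact hi (hji ▸ hj)
    obtain ⟨p, hp0, hp⟩ := halg
    refine ⟨p.map (Subalgebra.inclusion h1).toRingHom, ?_, ?_⟩
    · intro h
      apply hp0
      exact Polynomial.map_injective _ (Subalgebra.inclusion_injective h1)
        (h.trans (Polynomial.map_zero _).symm)
    · rw [Polynomial.aeval_def, Polynomial.eval₂_map]
      exact hp
  apply hP
  rw [← hP', hind.eq_zero_of_aeval_eq_zero P', map_zero]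
  rw [aeval_def, ← eval_map, hP', h0]

/-- The same for a polynomial in the variables of one block. -/
private theorem w0_block {ι S : Type} (b : ι → S) (σ : S) (s : Set F) (x : ι → F) (P : MvPolynomial ι F)
    (hP : P ≠ 0) (hv : ∀ i ∈ P.vars, b i = σ) (hc : ∀ α, P.coeff α ∈ Algebra.adjoin R s)
    (h0 : eval x P = 0) :
    ∃ i, b i = σ ∧ x i ∈ (AlgebraicIndependent.matroid R F).closure (s ∪ x '' {j | b j = σ ∧ j ≠ i}) := by
  obtain ⟨P', hP'⟩ := exists_rename_eq_of_vars_subset_range P (fun i : {i // b i = σ} => i.1)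
    Subtype.val_injective (by
      intro i hi
      exact ⟨⟨i, hv i hi⟩, rfl⟩)
  obtain ⟨⟨i, hi⟩, h⟩ := w0_dep s (fun i : {i // b i = σ} => x i.1) P' (by
      rintro rfl
      exact hP (by rw [← hP', map_zero])) (by
      intro α
      rw [← coeff_rename_mapDomain _ Subtype.val_injective, hP']
      exact hc _) (by
      rw [← h0, ← hP', eval_rename]
      rfl)
  refine ⟨i, hi, ?_⟩
  refine (AlgebraicIndependent.matroid R F).closure_subset_closure ?_ h
  refine Set.union_subset_union_right _ ?_
  rintro _ ⟨⟨j, hj⟩, hji, rfl⟩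
  refine ⟨j, ⟨hj, ?_⟩, rfl⟩
  rintro rfl
  exact hji rfl

/-- Points which satisfy one equation for each block, with fewer parameters than blocks, have algebraically
dependent coordinates. -/
theorem dependent {ι S : Type} [Finite ι] [Finite S] (b : ι → S) (s : Set F)
    (hs : s.encard < (Set.univ : Set S).encard) (x : ι → F) (q : S → MvPolynomial ι F)
    (hq : ∀ σ, q σ ≠ 0) (hv : ∀ σ, ∀ i ∈ (q σ).vars, b i = σ)
    (hc : ∀ σ α, (q σ).coeff α ∈ Algebra.adjoin R s) (h0 : ∀ σ, eval x (q σ) = 0) :
    ¬ AlgebraicIndependent R x := by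
  intro hind
  choose i hib hi using fun σ => w0_block b σ s x (q σ) (hq σ) (hv σ) (hc σ) (h0 σ)
  obtain ⟨M, hM⟩ : ∃ M, M = AlgebraicIndependent.matroid R F := ⟨_, rfl⟩
  rw [← hM] at hi
  have hE : M.E = Set.univ := by rw [hM]; rfl
  have hR : Nontrivial R := (algebraMap R F).domain_nontrivial
  have hxi : Function.Injective x := hind.injective
  have hI : M.Indep (Set.range x) := by
    rw [hM, AlgebraicIndependent.matroid_indep_iff]
    exact hind.to_subtype_range
  have hii : Function.Injective i := by
    intro σ τ h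
    rw [← hib σ, ← hib τ, h]
  have h1 : Set.range x ⊆ M.closure (s ∪ x '' (Set.range i)ᶜ) := by
    rintro _ ⟨j, rfl⟩
    by_cases hj : j ∈ Set.range i
    · obtain ⟨σ, rfl⟩ := hj
      refine M.closure_subset_closure ?_ (hi σ)
      refine Set.union_subset_union_right _ (Set.image_mono ?_)
      rintro j ⟨hj, hji⟩ ⟨τ, rfl⟩
      rw [hib τ] at hj
      exact hji (by rw [hj])
    · refine M.subset_closure _ (by rw [hE]; exact Set.subset_univ _) ?_
      exact Or.inr ⟨j, hj, rfl⟩
  have h2 : (Set.univ : Set ι).encard ≤ s.encard + ((Set.range i)ᶜ).encard := by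
    calc (Set.univ : Set ι).encard = (Set.range x).encard := by
          rw [← Set.image_univ, hxi.encard_image]
      _ ≤ M.eRk (M.closure (s ∪ x '' (Set.range i)ᶜ)) := hI.encard_le_eRk_of_subset h1
      _ = M.eRk (s ∪ x '' (Set.range i)ᶜ) := M.eRk_closure_eq _
      _ ≤ (s ∪ x '' (Set.range i)ᶜ).encard := M.eRk_le_encard _
      _ ≤ s.encard + (x '' (Set.range i)ᶜ).encard := Set.encard_union_le _ _
      _ ≤ s.encard + ((Set.range i)ᶜ).encard := by
          gcongr
          exact Set.encard_image_le _ _
  have h3 : (Set.range i).encard + ((Set.range i)ᶜ).encard = (Set.univ : Set ι).encard :=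
    Set.encard_add_encard_compl _
  have h4 : (Set.range i).encard = (Set.univ : Set S).encard := by
    rw [← Set.image_univ, hii.encard_image]
  rw [← h3, h4] at h2
  have h5 : ((Set.range i)ᶜ).encard ≠ ⊤ := by
    rw [Set.encard_ne_top_iff]
    exact Set.toFinite _
  exact absurd hs (not_lt.mpr ((ENat.add_le_add_iff_right h5).mp h2))

end

end Pool.Agent.Lib.MP_ec260d_ntW
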