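import Mathlib
import Pool.Agent.Lib.MP_ec260d_ntW.W0

/-!
Elimination of parameters with a uniform bound for the degree, by an ultraproduct.
-/

namespace Pool.Agent.Lib.MP_ec260d_ntW

open MvPolynomial

section

variable {V I : Type} [Fintype V] [Fintype I] [DecidableEq V] [DecidableEq I]

noncomputable def w1_ex (D : ℕ) (p : (V → Fin (D + 1)) × (I → Fin (D + 1))) : V ⊕ I →₀ ℕ :=
  Finsupp.equivFunOnFinite.symm (Sum.elim (fun a => (p.1 a : ℕ)) (fun i => (p.2 i : ℕ)))

theorem w1_ex_inj (D : ℕ) : Function.Injective (w1_ex (V := V) (I := I) D) := by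
  intro p p' h
  have h1 := congrArg Finsupp.equivFunOnFinite h
  simp only [w1_ex, Equiv.apply_symm_apply] at h1
  refine Prod.ext (funext fun a => Fin.ext ?_) (funext fun i => Fin.ext ?_)
  · exact congrFun h1 (Sum.inl a)
  · exact congrFun h1 (Sum.inr i)

theorem w1_eval {A : Type} [CommRing A] (D : ℕ) (q : MvPolynomial (V ⊕ I) A)
    (hq : q.totalDegree ≤ D) (v : V → A) (x : I → A) :
    eval (Sum.elim v x) q = ∑ p : (V → Fin (D + 1)) × (I → Fin (D + 1)),
      q.coeff (w1_ex D p) * (∏ a, v a ^ (p.1 a : ℕ)) * ∏ i, x i ^ (p.2 i : ℕ) := by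
  classical
  rw [eval_eq']
  have h1 : q.support ⊆ Finset.univ.image (w1_ex D) := by
    intro m hm
    rw [Finset.mem_image]
    have h2 : ∀ a, m a ≤ D := by
      intro a
      refine le_trans ?_ ((le_totalDegree hm).trans hq)
      by_cases ha : m a = 0
      · rw [ha]; exact Nat.zero_le _
      · exact Finset.single_le_sum (f := fun a => m a) (fun _ _ => Nat.zero_le _)
          (Finsupp.mem_support_iff.mpr ha)
    refine ⟨(fun a => ⟨m (Sum.inl a), Nat.lt_succ_of_le (h2 _)⟩,
      fun i => ⟨m (Sum.inr i), Nat.lt_succ_of_le (h2 _)⟩), Finset.mem_univ _, ?_⟩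
    ext (a | i) <;> simp [w1_ex]
  rw [Finset.sum_subset h1, Finset.sum_image (fun p _ p' _ h => w1_ex_inj D h)]
  · refine Finset.sum_congr rfl fun p _ => ?_
    rw [Fintype.prod_sum_type, mul_assoc]
    rfl
  · intro m _ hm
    rw [notMem_support_iff.mp hm, zero_mul]

end

section

variable {F : Type} [Field F] (ρ : (ℕ → ℂ) →+* F)

private theorem w1_comm {κ : Type} (y : κ → ℕ → ℂ) (P : MvPolynomial κ ℤ) :
    aeval (fun k => ρ (y k)) P = ρ (fun n => aeval (fun k => y k n) P) := by
  have h1 : ρ (aeval y P) = aeval (fun k => ρ (y k)) P := by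
    rw [map_aeval, aeval_def, coe_eval₂Hom]
    congr 1
    exact RingHom.ext_int _ _
  rw [← h1]
  congr 1
  funext n
  have h2 : (Pi.evalRingHom (fun _ : ℕ => ℂ) n) (aeval y P) = aeval (fun k => y k n) P := by
    rw [map_aeval, aeval_def, coe_eval₂Hom]
    congr 1
  exact h2

private theorem w1_comm2 {κ I : Type} (y : κ → ℕ → ℂ) (x : I → ℕ → ℂ)
    (P : MvPolynomial I (MvPolynomial κ ℤ)) :
    eval (fun i => ρ (x i)) (MvPolynomial.map (aeval fun k => ρ (y k)).toRingHom P) =
      ρ (fun n => eval (fun i => x i n) (MvPolynomial.map (aeval fun k => y k n).toRingHom P)) := by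
  have h0 : ∀ (A B : Type) [CommRing A] [CommRing B] (f : A →+* B) (y : κ → A) (x : I → A),
      f (eval₂ (aeval (R := ℤ) y).toRingHom x P) =
        eval₂ (aeval (R := ℤ) fun k => f (y k)).toRingHom (fun i => f (x i)) P := by
    intro A B _ _ f y x
    rw [eval₂_comp_left]
    congr 1
    refine RingHom.ext fun c => ?_
    change f (aeval y c) = aeval (fun k => f (y k)) c
    rw [map_aeval, aeval_def, coe_eval₂Hom,
      RingHom.ext_int (f.comp (algebraMap ℤ A)) (algebraMap ℤ B)]
  rw [eval_map, ← h0 (ℕ → ℂ) F ρ y x]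
  congr 1
  funext n
  rw [eval_map]
  exact h0 (ℕ → ℂ) ℂ (Pi.evalRingHom (fun _ : ℕ => ℂ) n) y x

theorem w1_indep {κ I : Type} [Countable κ] [Countable I] (l : Filter ℕ) (hl : l ≤ Filter.atTop)
    (hρ : ∀ f, ρ f = 0 ↔ ∀ᶠ n in l, f n = 0) (y : κ → ℕ → ℂ) (x : I → ℕ → ℂ)
    (e : ℕ → MvPolynomial I (MvPolynomial κ ℤ)) (he : Function.Surjective e)
    (h : ∀ j n, j < n → MvPolynomial.map (aeval fun k => y k n).toRingHom (e j) ≠ 0 →
      eval (fun i => x i n) (MvPolynomial.map (aeval fun k => y k n).toRingHom (e j)) ≠ 0) :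
    AlgebraicIndependent (aeval (R := ℤ) fun k => ρ (y k)).range (fun i => ρ (x i)) := by
  rw [algebraicIndependent_iff]
  intro p hp
  obtain ⟨P, hP⟩ := map_surjective (σ := I) (aeval (R := ℤ) fun k => ρ (y k)).rangeRestrict.toRingHom
    (AlgHom.rangeRestrict_surjective _) p
  obtain ⟨j, rfl⟩ := he P
  have h1 : MvPolynomial.map (algebraMap (aeval (R := ℤ) fun k => ρ (y k)).range F) p =
      MvPolynomial.map (aeval fun k => ρ (y k)).toRingHom (e j) := by
    rw [← hP, map_map]
    rfl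
  have h2 : eval (fun i => ρ (x i)) (MvPolynomial.map (aeval fun k => ρ (y k)).toRingHom (e j)) = 0 := by
    rw [← h1, eval_map, ← aeval_def, hp]
  rw [w1_comm2, hρ] at h2
  have h3 : ∀ᶠ n in l, MvPolynomial.map (aeval fun k => y k n).toRingHom (e j) = 0 := by
    filter_upwards [h2, hl (Filter.eventually_gt_atTop j)] with n hn hjn
    by_contra hne
    exact h j n hjn hne hn
  have h4 : MvPolynomial.map (aeval fun k => ρ (y k)).toRingHom (e j) = 0 := by
    ext α
    rw [coeff_map, coeff_zero]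
    change aeval (fun k => ρ (y k)) (coeff α (e j)) = 0
    rw [w1_comm, hρ]
    filter_upwards [h3] with n hn
    have h5 := congrArg (coeff α) hn
    rw [coeff_map, coeff_zero] at h5
    exact h5
  rw [← h1] at h4
  exact map_injective _ Subtype.val_injective (h4.trans (map_zero _).symm)

end

end Pool.Agent.Lib.MP_ec260d_ntW
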