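import Mathlib
import Pool.Agent.Lib.MP_ec260d_ntW.W0
import Pool.Agent.Lib.MP_ec260d_ntW.W1

/-!
Elimination of parameters with a uniform bound for the degree.
-/

namespace Pool.Agent.Lib.MP_ec260d_ntW

open MvPolynomial

private theorem w2_deg {I A B : Type} [CommRing A] [CommRing B] (f : A →+* B) (P : MvPolynomial I A) :
    (MvPolynomial.map f P).totalDegree ≤ P.totalDegree :=
  Finset.sup_mono (support_map_subset f P)

private theorem w2_count {σ A : Type} [CommRing A] [Countable σ] [Countable A] :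
    Countable (MvPolynomial σ A) := by
  rw [← Cardinal.mk_le_aleph0_iff]
  refine cardinalMk_le_max.trans ?_
  exact sup_le (sup_le (Cardinal.mk_le_aleph0_iff.mpr inferInstance)
    (Cardinal.mk_le_aleph0_iff.mpr inferInstance)) le_rfl

private theorem w2_core {V I S : Type} [Fintype V] [Fintype I] [Fintype S] [DecidableEq V] [DecidableEq I]
    (hVS : Fintype.card V < Fintype.card S) (b : I → S) (D : ℕ) {F : Type} [Field F]
    (ρ : (ℕ → ℂ) →+* F) (l : Filter ℕ) [l.NeBot] (hl : l ≤ Filter.atTop)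
    (hρ : ∀ f, ρ f = 0 ↔ ∀ᶠ n in l, f n = 0) (q : ℕ → S → MvPolynomial (V ⊕ I) ℂ)
    (hqD : ∀ n s, (q n s).totalDegree ≤ D) (hqv : ∀ n s i, Sum.inr i ∈ (q n s).vars → b i = s)
    (e : ℕ → MvPolynomial I (MvPolynomial (S × ((V → Fin (D + 1)) × (I → Fin (D + 1)))) ℤ))
    (he : Function.Surjective e) (v : ℕ → V → ℂ) (x : ℕ → I → ℂ) (z : ℕ → S → I → ℂ)
    (hz : ∀ n s, eval (Sum.elim (v n) (z n s)) (q n s) ≠ 0)
    (hx : ∀ n s, eval (Sum.elim (v n) (x n)) (q n s) = 0)
    (h : ∀ j n, j < n →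
      MvPolynomial.map (aeval fun k => (q n k.1).coeff (w1_ex D k.2)).toRingHom (e j) ≠ 0 →
      eval (x n) (MvPolynomial.map (aeval fun k => (q n k.1).coeff (w1_ex D k.2)).toRingHom (e j)) ≠ 0) :
    False := by
  obtain ⟨y, hy⟩ : ∃ y : S × ((V → Fin (D + 1)) × (I → Fin (D + 1))) → ℕ → ℂ,
      y = fun k n => (q n k.1).coeff (w1_ex D k.2) := ⟨_, rfl⟩
  obtain ⟨R, hR⟩ : ∃ R, R = (aeval (R := ℤ) fun k => ρ (y k)).range := ⟨_, rfl⟩
  have hind : AlgebraicIndependent R (fun i => ρ (fun n => x n i)) := by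
    rw [hR]
    refine w1_indep ρ l hl hρ y (fun i n => x n i) e he ?_
    rw [hy]
    exact h
  have hRy : ∀ k, ρ (y k) ∈ R := by
    intro k
    rw [hR]
    exact ⟨X k, aeval_X _ _⟩
  obtain ⟨Q, hQ⟩ : ∃ Q : S → MvPolynomial I F, Q = fun s =>
      ∑ p : (V → Fin (D + 1)) × (I → Fin (D + 1)),
        monomial (Finsupp.equivFunOnFinite.symm fun i => (p.2 i : ℕ))
          (ρ (y (s, p)) * ∏ a, ρ (fun n => v n a) ^ (p.1 a : ℕ)) := ⟨_, rfl⟩
  have hQe : ∀ s (u : I → ℕ → ℂ), eval (fun i => ρ (u i)) (Q s) =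
      ρ (fun n => eval (Sum.elim (v n) (fun i => u i n)) (q n s)) := by
    intro s u
    have h1 : (fun n => eval (Sum.elim (v n) (fun i => u i n)) (q n s)) =
        ∑ p : (V → Fin (D + 1)) × (I → Fin (D + 1)),
          y (s, p) * (∏ a, (fun n => v n a) ^ (p.1 a : ℕ)) * ∏ i, u i ^ (p.2 i : ℕ) := by
      funext n
      rw [w1_eval D (q n s) (hqD n s), Finset.sum_apply]
      refine Finset.sum_congr rfl fun p _ => ?_
      rw [Pi.mul_apply, Pi.mul_apply, Finset.prod_apply, Finset.prod_apply, hy]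
      rfl
    rw [h1, map_sum, hQ]
    simp only [map_sum, map_mul, map_prod, map_pow, eval_monomial]
    refine Finset.sum_congr rfl fun p _ => ?_
    rw [Finsupp.prod_fintype _ _ (fun _ => pow_zero _)]
    rfl
  refine dependent (R := R) b (Set.range fun a => ρ (fun n => v n a)) ?_ _ Q ?_ ?_ ?_ ?_ hind
  · refine lt_of_le_of_lt (b := (Fintype.card V : ℕ∞)) ?_ ?_
    · rw [← Set.image_univ]
      refine (Set.encard_image_le _ _).trans ?_
      rw [Set.encard_univ, ENat.card_eq_coe_fintype_card]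
    · rw [Set.encard_univ, ENat.card_eq_coe_fintype_card]
      exact_mod_cast hVS
  · intro s h0
    have h1 := hQe s (fun i n => z n s i)
    rw [h0, map_zero] at h1
    obtain ⟨n, hn⟩ := ((hρ _).mp h1.symm).exists
    exact hz n s hn
  · intro s i hi
    rw [mem_vars] at hi
    obtain ⟨α, hα, hαi⟩ := hi
    rw [mem_support_iff, hQ, coeff_sum] at hα
    obtain ⟨p, _, hp⟩ := Finset.exists_ne_zero_of_sum_ne_zero hα
    rw [coeff_monomial] at hp
    split_ifs at hp with hpα
    · have h1 : ρ (y (s, p)) ≠ 0 := left_ne_zero_of_mul hp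
      have h2 : ∃ n, y (s, p) n ≠ 0 := by
        by_contra hc
        push Not at hc
        exact h1 ((hρ _).mpr (Filter.Eventually.of_forall hc))
      obtain ⟨n, hn⟩ := h2
      apply hqv n s i
      rw [mem_vars]
      rw [hy] at hn
      refine ⟨w1_ex D p, mem_support_iff.mpr hn, ?_⟩
      rw [Finsupp.mem_support_iff, ← hpα] at hαi
      rw [Finsupp.mem_support_iff]
      exact hαi
    · exact absurd rfl hp
  · intro s α
    rw [hQ, coeff_sum]
    refine sum_mem fun p _ => ?_
    rw [coeff_monomial]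
    split_ifs with hpα
    · refine mul_mem ?_ (prod_mem fun a _ => pow_mem (Algebra.subset_adjoin (Set.mem_range_self a)) _)
      exact Subalgebra.algebraMap_mem _ (⟨ρ (y (s, p)), hRy (s, p)⟩ : R)
    · exact zero_mem _
  · intro s
    rw [hQe s (fun i n => x n i), hρ]
    exact Filter.Eventually.of_forall fun n => hx n s

/-- Elimination of parameters: a family of points of `ℂ^I`, given by one equation for each block of coordinates
with fewer parameters than blocks, lies on a hypersurface, whose degree depends only on the shape. -/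
theorem elim {V I S : Type} [Fintype V] [Fintype I] [Fintype S] (hVS : Fintype.card V < Fintype.card S)
    (b : I → S) (D : ℕ) : ∃ E : ℕ, ∀ q : S → MvPolynomial (V ⊕ I) ℂ,
      (∀ s, (q s).totalDegree ≤ D) → (∀ s i, Sum.inr i ∈ (q s).vars → b i = s) →
      ∃ P : MvPolynomial I ℂ, P ≠ 0 ∧ P.totalDegree ≤ E ∧ ∀ (v : V → ℂ) (x : I → ℂ),
        (∀ s, (∃ z : I → ℂ, eval (Sum.elim v z) (q s) ≠ 0) ∧ eval (Sum.elim v x) (q s) = 0) →
        eval x P = 0 := by
  classical
  by_contra hcon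
  push Not at hcon
  choose q hqD hqv hq using hcon
  have hcount : Countable (MvPolynomial I (MvPolynomial (S × ((V → Fin (D + 1)) × (I → Fin (D + 1)))) ℤ)) := by
    have h1 : Countable (MvPolynomial (S × ((V → Fin (D + 1)) × (I → Fin (D + 1)))) ℤ) := w2_count
    exact w2_count
  obtain ⟨e, he⟩ := exists_surjective_nat
    (MvPolynomial I (MvPolynomial (S × ((V → Fin (D + 1)) × (I → Fin (D + 1)))) ℤ))
  obtain ⟨f, hf⟩ : ∃ f : ℕ → ℕ, f = fun n => ∑ j ∈ Finset.range n, (e j).totalDegree := ⟨_, rfl⟩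
  obtain ⟨g, hg⟩ : ∃ g : ℕ → ℕ → MvPolynomial I ℂ, g = fun n j =>
      MvPolynomial.map (aeval fun k => (q (f n) k.1).coeff (w1_ex D k.2)).toRingHom (e j) := ⟨_, rfl⟩
  obtain ⟨P, hP⟩ : ∃ P : ℕ → MvPolynomial I ℂ, P = fun n =>
      ∏ j ∈ Finset.range n, if g n j = 0 then 1 else g n j := ⟨_, rfl⟩
  have hP0 : ∀ n, P n ≠ 0 := by
    intro n
    rw [hP]
    refine Finset.prod_ne_zero_iff.mpr fun j _ => ?_
    split_ifs with h
    · exact one_ne_zero
    · exact h
  have hPd : ∀ n, (P n).totalDegree ≤ f n := by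
    intro n
    rw [hP, hf]
    refine (totalDegree_finsetProd _ _).trans (Finset.sum_le_sum fun j _ => ?_)
    split_ifs with h
    · rw [totalDegree_one]
      exact Nat.zero_le _
    · rw [hg]
      exact w2_deg _ _
  choose v x hvx hne using fun n => hq (f n) (P n) (hP0 n) (hPd n)
  choose z hz using fun n s => (hvx n s).1
  refine w2_core hVS b D (F := Filter.Germ (Filter.hyperfilter ℕ : Filter ℕ) ℂ)
    (Filter.Germ.coeRingHom (Filter.hyperfilter ℕ : Filter ℕ)) (Filter.hyperfilter ℕ : Filter ℕ)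
    Nat.hyperfilter_le_atTop ?_ (fun n => q (f n)) (fun n => hqD (f n)) (fun n => hqv (f n)) e he
    v x z hz (fun n s => (hvx n s).2) ?_
  · intro u
    exact Filter.Germ.coe_eq
  · intro j n hjn h0 h1
    apply hne n
    rw [hP]
    change eval (x n) (∏ j ∈ Finset.range n, if g n j = 0 then 1 else g n j) = 0
    rw [map_prod]
    refine Finset.prod_eq_zero (Finset.mem_range.mpr hjn) ?_
    have h2 : g n j ≠ 0 := by
      rw [hg]
      exact h0
    rw [if_neg h2, hg]
    exact h1

end Pool.Agent.Lib.MP_ec260d_ntW
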