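import Mathlib
import Pool.Agent.Lib.MP_ec260d_ntW.WB1

/-!
# Windows: the statement (W) (orbits of linear maps, decimation)
-/

namespace Pool.Agent.Lib.MP_ec260d_ntW

open MvPolynomial Matrix

/-- the degree of a substitution -/
theorem totalDegree_bind_le {α β : Type} (f : α → MvPolynomial β ℂ) (K : ℕ) (hf : ∀ a, (f a).totalDegree ≤ K)
    (p : MvPolynomial α ℂ) : (bind₁ f p).totalDegree ≤ p.totalDegree * K := by
  rw [bind₁, aeval_def, eval₂_eq]
  refine totalDegree_finsetSum_le fun m hm => ?_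
  refine (totalDegree_mul _ _).trans ?_
  rw [algebraMap_eq, totalDegree_C, zero_add]
  refine (totalDegree_finsetProd _ _).trans ?_
  calc ∑ i ∈ m.support, (f i ^ m i).totalDegree ≤ ∑ i ∈ m.support, m i * K :=
        Finset.sum_le_sum fun i _ => (totalDegree_pow _ _).trans (Nat.mul_le_mul_left _ (hf i))
    _ = (∑ i ∈ m.support, m i) * K := by rw [Finset.sum_mul]
    _ ≤ p.totalDegree * K := Nat.mul_le_mul_right _ (le_totalDegree hm)

/-- the type of the parameters: a matrix, a vector, free parameters -/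
abbrev Par (r d : ℕ) : Type := (Fin r × Fin r) ⊕ (Fin r ⊕ Fin d)

/-- the entries of `B^s y` as polynomials -/
noncomputable def orb (r d k : ℕ) : ℕ → Fin r → MvPolynomial (Par r d ⊕ Fin (k + 1)) ℂ
  | 0 => fun a => X (Sum.inl (Sum.inr (Sum.inl a)))
  | s + 1 => fun a => ∑ b, X (Sum.inl (Sum.inl (a, b))) * orb r d k s b

theorem orb_deg (r d k : ℕ) (s : ℕ) (a : Fin r) : (orb r d k s a).totalDegree ≤ s + 1 := by
  induction s generalizing a with
  | zero => rw [orb, totalDegree_X]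
  | succ s ih =>
    rw [orb]
    refine totalDegree_finsetSum_le fun b _ => ?_
    refine (totalDegree_mul _ _).trans ?_
    rw [totalDegree_X]
    have := ih b
    omega

/-- the point with the parameters `B, y, w` -/
def parv {r d : ℕ} (B : Matrix (Fin r) (Fin r) ℂ) (y : Fin r → ℂ) (w : Fin d → ℂ) : Par r d → ℂ :=
  Sum.elim (fun ab => B ab.1 ab.2) (Sum.elim y w)

theorem orb_eval {r d k : ℕ} (B : Matrix (Fin r) (Fin r) ℂ) (y : Fin r → ℂ) (w : Fin d → ℂ)
    (z : Fin (k + 1) → ℂ) (s : ℕ) (a : Fin r) :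
    eval (Sum.elim (parv B y w) z) (orb r d k s a) = ((B ^ s) *ᵥ y) a := by
  induction s generalizing a with
  | zero =>
    rw [orb, eval_X, pow_zero, one_mulVec]
    rfl
  | succ s ih =>
    rw [orb, map_sum, pow_succ', ← mulVec_mulVec]
    refine Finset.sum_congr rfl fun b _ => ?_
    rw [map_mul, eval_X, ih b]
    rfl

/-- substitution of `B^s y` for the first variables -/
noncomputable def subs (r d k s : ℕ) (q : MvPolynomial ((Fin r ⊕ Fin d) ⊕ Fin (k + 1)) ℂ) :
    MvPolynomial (Par r d ⊕ Fin (k + 1)) ℂ :=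
  bind₁ (Sum.elim (Sum.elim (orb r d k s) fun b => X (Sum.inl (Sum.inr (Sum.inr b)))) fun i => X (Sum.inr i)) q

theorem subs_deg (r d k s D : ℕ) (q : MvPolynomial ((Fin r ⊕ Fin d) ⊕ Fin (k + 1)) ℂ)
    (hq : q.totalDegree ≤ D) : (subs r d k s q).totalDegree ≤ D * (s + 1) := by
  refine (totalDegree_bind_le _ (s + 1) (fun a => ?_) q).trans (Nat.mul_le_mul_right _ hq)
  rcases a with (a | a) | a
  · exact orb_deg r d k s a
  · show (X _ : MvPolynomial (Par r d ⊕ Fin (k + 1)) ℂ).totalDegree ≤ s + 1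
    rw [totalDegree_X]
    omega
  · show (X _ : MvPolynomial (Par r d ⊕ Fin (k + 1)) ℂ).totalDegree ≤ s + 1
    rw [totalDegree_X]
    omega

theorem subs_eval {r d k : ℕ} (s : ℕ) (q : MvPolynomial ((Fin r ⊕ Fin d) ⊕ Fin (k + 1)) ℂ)
    (B : Matrix (Fin r) (Fin r) ℂ) (y : Fin r → ℂ) (w : Fin d → ℂ) (z : Fin (k + 1) → ℂ) :
    eval (Sum.elim (parv B y w) z) (subs r d k s q) =
      eval (Sum.elim (Sum.elim ((B ^ s) *ᵥ y) w) z) q := by
  unfold subs
  have h1 : (eval (Sum.elim (parv B y w) z)).comp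
      (bind₁ (Sum.elim (Sum.elim (orb r d k s) fun b => X (Sum.inl (Sum.inr (Sum.inr b))))
        fun i => X (Sum.inr i)) : MvPolynomial ((Fin r ⊕ Fin d) ⊕ Fin (k + 1)) ℂ →ₐ[ℂ]
          MvPolynomial (Par r d ⊕ Fin (k + 1)) ℂ).toRingHom =
      eval (Sum.elim (Sum.elim ((B ^ s) *ᵥ y) w) z) := by
    refine ringHom_ext (fun c => ?_) fun a => ?_
    · rw [RingHom.comp_apply]
      show eval _ (bind₁ _ (C c)) = _
      rw [bind₁_C_right, eval_C, eval_C]
    · rw [RingHom.comp_apply]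
      show eval _ (bind₁ _ (X a)) = _
      rw [bind₁_X_right, eval_X]
      rcases a with (a | a) | a
      · exact orb_eval B y w z s a
      · show eval _ (X _) = _
        rw [eval_X]
        rfl
      · show eval _ (X _) = _
        rw [eval_X]
        rfl
  exact congrArg (fun φ => φ q) h1

open Classical in
/-- the statement (W) -/
theorem wind_W (hel : ElimSt) {G : ℕ → ℕ → Set ℂ} (hG : Hyp G) (r d k D H : ℕ) (ε C : ℝ) (hε : 0 < ε)
    (hC : 0 ≤ C) : ∃ M L N₀ : ℕ, ∀ N : ℕ, N₀ ≤ N → ∀ t : ℕ → Fin (k + 1) → ℕ, (∃ i, t 0 i = 0) →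
      (∀ i, ∀ j, j < L → t j i < t (j + 1) i) →
      (∀ i i', i ≠ i' → ∀ j j', j ≤ L → j' ≤ L → t j i + M ≤ t j' i' ∨ t j' i' + M ≤ t j i) →
      (∀ i, (t L i : ℝ) ≤ C * N) →
      ∀ Q : ℕ → Finset (MvPolynomial ((Fin r ⊕ Fin d) ⊕ Fin (k + 1)) ℂ),
        (∀ j, (Q j).card ≤ H ∧ ∀ q ∈ Q j, q.totalDegree ≤ D) →
        (((Finset.Icc 1 N).filter (fun n : ℕ => ∃ (A : Matrix (Fin r) (Fin r) ℂ) (y : Fin r → ℂ)
          (w : Fin d → ℂ) (x : ℕ → Fin (k + 1) → ℂ), (∀ j, j ≤ L → ∀ i, x j i ∈ G N (n + t j i)) ∧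
            ∀ j, j ≤ L → ∃ q ∈ Q j,
              (∃ z : Fin (k + 1) → ℂ, eval (Sum.elim (Sum.elim ((A ^ j) *ᵥ y) w) z) q ≠ 0) ∧
                eval (Sum.elim (Sum.elim ((A ^ j) *ᵥ y) w) (x j)) q = 0)).card : ℝ) ≤ ε * N := by
  obtain ⟨dV, hdV⟩ : ∃ dV, dV = Fintype.card (Par r d) := ⟨_, rfl⟩
  obtain ⟨M, N₀, hM⟩ := wind_T hel hG (Par r d) (Fin (dV + 1)) (by rw [Fintype.card_fin, hdV]; omega)
    k (D * (dV + 1)) H ε C hε hC
  refine ⟨M, dV * M, N₀, fun N hN t h0 hinc hsep htC Q hQ => ?_⟩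
  -- growth of the shifts
  have hgrow : ∀ i, ∀ a b, a ≤ b → b ≤ dV * M → t a i + (b - a) ≤ t b i := by
    intro i a b hab
    induction b, hab using Nat.le_induction with
    | base => intro _; simp
    | succ b hab ih =>
      intro hb
      have h1 := ih (by omega)
      have h2 := hinc i b (by omega)
      omega
  have hsM : ∀ s : Fin (dV + 1), (s : ℕ) * M ≤ dV * M := fun s =>
    Nat.mul_le_mul_right _ (Nat.lt_succ_iff.1 s.2)
  have key := hM N hN (fun s i => t ((s : ℕ) * M) i) ?_ ?_ ?_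
    (fun s => (Q ((s : ℕ) * M)).image (subs r d k s)) ?_
  · refine le_trans (Nat.cast_le.2 (Finset.card_le_card fun n hn => ?_)) key
    rw [Finset.mem_filter] at hn ⊢
    obtain ⟨hn1, A, y, w, x, hx, hq⟩ := hn
    refine ⟨hn1, parv (A ^ M) y w, fun s => x ((s : ℕ) * M), fun s i => hx _ (hsM s) i, fun s => ?_⟩
    obtain ⟨q, hqQ, ⟨z, hz⟩, hq0⟩ := hq _ (hsM s)
    refine ⟨subs r d k s q, Finset.mem_image_of_mem _ hqQ, ⟨z, ?_⟩, ?_⟩
    · rw [subs_eval, ← pow_mul, mul_comm M]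
      exact hz
    · rw [subs_eval, ← pow_mul, mul_comm M]
      exact hq0
  · obtain ⟨i, hi⟩ := h0
    refine ⟨0, i, ?_⟩
    rw [Fin.val_zero, zero_mul]
    exact hi
  · intro s i s' i' hne
    by_cases hi : i = i'
    · subst hi
      have hs : s ≠ s' := fun h => hne (by rw [h])
      rcases lt_or_gt_of_ne hs with h | h
      · left
        have h1 := hgrow i (s * M) (s' * M) (Nat.mul_le_mul_right _ h.le) (hsM s')
        have h2 : (s : ℕ) * M + M ≤ s' * M := by
          have : (s : ℕ) + 1 ≤ s' := h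
          calc (s : ℕ) * M + M = (s + 1) * M := by ring
            _ ≤ s' * M := Nat.mul_le_mul_right _ this
        show t (s * M) i + M ≤ t (s' * M) i
        omega
      · right
        have h1 := hgrow i (s' * M) (s * M) (Nat.mul_le_mul_right _ h.le) (hsM s)
        have h2 : (s' : ℕ) * M + M ≤ s * M := by
          have : (s' : ℕ) + 1 ≤ s := h
          calc (s' : ℕ) * M + M = (s' + 1) * M := by ring
            _ ≤ s * M := Nat.mul_le_mul_right _ this
        show t (s' * M) i + M ≤ t (s * M) i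
        omega
    · exact hsep i i' hi _ _ (hsM s) (hsM s')
  · intro s i
    refine le_trans ?_ (htC i)
    have h1 := hgrow i (s * M) (dV * M) (hsM s) le_rfl
    exact Nat.cast_le.2 (le_trans (Nat.le_add_right _ _) h1)
  · intro s
    refine ⟨Finset.card_image_le.trans (hQ _).1, fun q' hq' => ?_⟩
    obtain ⟨q, hq, rfl⟩ := Finset.mem_image.1 hq'
    refine (subs_deg r d k s D q ((hQ _).2 q hq)).trans (Nat.mul_le_mul_left _ ?_)
    have := s.2
    omega

end Pool.Agent.Lib.MP_ec260d_ntW
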